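import Pool.Agent.helper56.NZ.Spec

/-! Project nz:, module HDC (composition with a cut). -/

set_option autoImplicit false

open Complex Metric Set Filter Topology MeasureTheory
open Pool.Agent.helper98.ILF Pool.Agent.helper16.Multibrot
open HY (UD T S hd UN RM VV SG Orb fz)

noncomputable section

namespace NZ

theorem HDC_comp {H σ : ℂ → ℂ} (hH : UN H) (hσ : UN σ) : UN (fun x => H (σ x)) :=
  ⟨hH.dif.comp hσ.dif hσ.map, fun _ hx _ hy hxy =>
    hσ.inj hx hy (hH.inj (hσ.map hx) (hσ.map hy) hxy), fun _ hx => hH.map (hσ.map hx)⟩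

theorem HDC_at {H : ℂ → ℂ} (hH : UN H) : DifferentiableAt ℂ H 0 :=
  hH.dif.differentiableAt (isOpen_ball.mem_nhds (mem_ball_self one_pos))

theorem HDC_der {H σ : ℂ → ℂ} (hH : UN H) (hσ : UN σ) (h0 : σ 0 = 0) :
    deriv (fun x => H (σ x)) 0 = deriv H 0 * deriv σ 0 := by
  have h1 : HasDerivAt H (deriv H 0) (σ 0) := by
    rw [h0]
    exact (HDC_at hH).hasDerivAt
  exact (h1.comp 0 (HDC_at hσ).hasDerivAt).deriv

theorem HDC (hMOB : HY.MOB_stmt) : HDC_stmt := by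
  refine ⟨?_, ?_, ?_, ?_⟩
  · intro H σ hH hσ h0
    refine ⟨HDC_comp hH hσ, ?_⟩
    unfold hd
    beta_reduce
    rw [HDC_der hH hσ h0, h0, norm_mul]
    ring
  · intro σ hσ h0
    have hm : MapsTo σ (ball 0 1) (closedBall (σ 0) 1) := by
      rw [h0]
      exact fun x hx => ball_subset_closedBall (hσ.map hx)
    exact Complex.norm_deriv_le_one_of_mapsTo_ball hσ.dif hm one_pos
  · intro σ ρ hσ hρ _ h0
    refine ⟨HDC_comp hσ hρ, ?_⟩
    rw [HDC_der hσ hρ h0, norm_mul]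
  · intro σ y τ hσ h0 hy hτ hτ1
    obtain ⟨hA, -, hS0, -, hSd, -, hSi, -, -, -, hSder, -⟩ := hMOB y hy
    have hm : ∀ x ∈ UD, (τ : ℂ) * σ x ∈ UD := by
      intro x hx
      have h1 : ‖σ x‖ < 1 := by simpa [HY.UD] using hσ.map hx
      have h2 : ‖(τ : ℂ) * σ x‖ < 1 := by
        rw [norm_mul, Complex.norm_real, Real.norm_of_nonneg hτ.le]
        calc τ * ‖σ x‖ ≤ 1 * ‖σ x‖ := mul_le_mul_of_nonneg_right hτ1 (norm_nonneg _)
          _ < 1 := by rw [one_mul]; exact h1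
      simpa [HY.UD] using h2
    have hSU : UN (S y) := ⟨hSd, hSi, fun x hx => (hA x hx).2.1⟩
    have hτσ : UN (fun x => (τ : ℂ) * σ x) := by
      refine ⟨hσ.dif.const_mul _, ?_, hm⟩
      intro x hx x' hx' hxx
      have hτ0 : (τ : ℂ) ≠ 0 := by exact_mod_cast hτ.ne'
      exact hσ.inj hx hx' (mul_left_cancel₀ hτ0 hxx)
    have h00 : (fun x => (τ : ℂ) * σ x) 0 = 0 := by
      show (τ : ℂ) * σ 0 = 0
      rw [h0, mul_zero]
    have h01 : (τ : ℂ) * σ 0 = 0 := h00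
    refine ⟨HDC_comp hSU hτσ, ?_, ?_⟩
    · rw [h01, hS0]
    · unfold hd
      have h2 := HDC_der hSU hτσ h00
      have h3 : deriv (fun x => (τ : ℂ) * σ x) 0 = τ * deriv σ 0 :=
        ((HDC_at hσ).hasDerivAt.const_mul (τ : ℂ)).deriv
      rw [h3, hSder] at h2
      have hy1 : ‖y‖ < 1 := by simpa [HY.UD] using hy
      have hpos : 0 < 1 - ‖y‖ ^ 2 := by nlinarith [norm_nonneg y]
      have h4 : ‖(1 : ℂ) - (‖y‖ : ℂ) ^ 2‖ = 1 - ‖y‖ ^ 2 := by
        have h5 : (1 : ℂ) - (‖y‖ : ℂ) ^ 2 = ((1 - ‖y‖ ^ 2 : ℝ) : ℂ) := by push_cast; ring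
        rw [h5, Complex.norm_real, Real.norm_of_nonneg hpos.le]
      beta_reduce
      rw [h2, h01, hS0, norm_mul, norm_mul, h4, Complex.norm_real, Real.norm_of_nonneg hτ.le]
      field_simp

end NZ
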